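import Pool.Agent.Helper73.RF.GoalsD

/-!
# Packet D2 of project RF (helper73): brackets of the basic derivations
-/

set_option autoImplicit false

open Finset Pool.Agent.Helper47.RF

namespace Pool.Agent.Helper62.RF

open Pool.Agent.Helper73.RF

theorem derf_derf {T : ℝ} (X Y : VF) {f : Om T → ℝ} (hf : IsB f) (p : Om T) :
    derf X.X (derf Y.X f) p = fderiv ℝ (fderiv ℝ (exT f)) p (X.X p) (Y.X p) +
      fderiv ℝ (exT f) p (fderiv ℝ Y.X p (X.X p)) := by
  have hop := isOpen_Om T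
  have h1 : (exT (derf Y.X f)) =ᶠ[nhds (p : W)] fun p => fderiv ℝ (exT f) p (Y.X p) := by
    filter_upwards [hop.mem_nhds p.2] with p' hp'
    rw [exT_of_mem _ hp']
    rfl
  have h2 : ContDiffAt ℝ inf (exT f) p := hf.cd.contDiffAt (hop.mem_nhds p.2)
  have h3 : ContDiffAt ℝ inf (fderiv ℝ (exT f)) p := h2.fderiv_right (by simp)
  have h4 : HasFDerivAt (fderiv ℝ (exT f)) (fderiv ℝ (fderiv ℝ (exT f)) p) p :=
    (h3.differentiableAt (by simp)).hasFDerivAt
  have h5 : HasFDerivAt Y.X (fderiv ℝ Y.X p) p :=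
    (Y.cd.contDiffAt.differentiableAt (by simp)).hasFDerivAt
  have h6 := h4.clm_apply h5
  change fderiv ℝ (exT (derf Y.X f)) p (X.X p) = _
  rw [h1.fderiv_eq, h6.fderiv]
  simp [add_comm]

theorem bracket {T : ℝ} (X Y : VF) {f : Om T → ℝ} (hf : IsB f) (p : Om T) :
    derf X.X (derf Y.X f) p - derf Y.X (derf X.X f) p =
      fderiv ℝ (exT f) p (fderiv ℝ Y.X p (X.X p) - fderiv ℝ X.X p (Y.X p)) := by
  have h2 : ContDiffAt ℝ inf (exT f) p := hf.cd.contDiffAt ((isOpen_Om T).mem_nhds p.2)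
  have h3 : IsSymmSndFDerivAt ℝ (exT f) p := h2.isSymmSndFDerivAt (by
    simp only [minSmoothness_of_isRCLikeNormedField]
    exact WithTop.coe_le_coe.2 le_top)
  rw [derf_derf X Y hf, derf_derf Y X hf, h3.eq (X.X p) (Y.X p), map_sub]
  ring

theorem fderiv_vf (a b c : HH) (d : ℝ) (p v : W) :
    fderiv ℝ (vf a b c d).X p v = (v.1 * a, v.2.1 * b + c * v.2.1, 0) := by
  have h : HasFDerivAt (vf a b c d).X
      (((mulR a).comp (ContinuousLinearMap.fst ℝ HH (HH × ℝ))).prod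
        (((mulR b).comp ((ContinuousLinearMap.fst ℝ HH ℝ).comp
          (ContinuousLinearMap.snd ℝ HH (HH × ℝ))) +
          (mulL c).comp ((ContinuousLinearMap.fst ℝ HH ℝ).comp
          (ContinuousLinearMap.snd ℝ HH (HH × ℝ)))).prod 0)) p := by
    refine HasFDerivAt.prodMk ?_ (HasFDerivAt.prodMk ?_ (hasFDerivAt_const _ _))
    · exact ((mulR a).comp (ContinuousLinearMap.fst ℝ HH (HH × ℝ))).hasFDerivAt
    · exact ((mulR b).comp ((ContinuousLinearMap.fst ℝ HH ℝ).comp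
          (ContinuousLinearMap.snd ℝ HH (HH × ℝ))) +
          (mulL c).comp ((ContinuousLinearMap.fst ℝ HH ℝ).comp
          (ContinuousLinearMap.snd ℝ HH (HH × ℝ)))).hasFDerivAt
  rw [h.fderiv]
  rfl

theorem bracket_vf {T : ℝ} (a b c a' b' c' : HH) (d d' : ℝ) {f : Om T → ℝ} (hf : IsB f)
    (p : Om T) :
    derf (vf a b c d).X (derf (vf a' b' c' d').X f) p -
      derf (vf a' b' c' d').X (derf (vf a b c d).X f) p =
      fderiv ℝ (exT f) p (p.1.1 * (a * a' - a' * a),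
        p.1.2.1 * (b * b' - b' * b) + (c' * c - c * c') * p.1.2.1, 0) := by
  rw [bracket _ _ hf]
  congr 1
  rw [fderiv_vf, fderiv_vf]
  refine Prod.ext ?_ (Prod.ext ?_ ?_)
  · simp only [vf, Prod.fst_sub]
    noncomm_ring
  · simp only [vf, Prod.fst_sub, Prod.snd_sub]
    noncomm_ring
  · simp [vf]

theorem qe_comm (i j : Fin 3) : qe i * qe j - qe j * qe i =
    (2 : ℝ) • ∑ k, Pool.Agent.Helper73.RF.eps i j k • qe k := by
  rw [Fin.sum_univ_three]
  fin_cases i <;> fin_cases j <;> ext <;> simp [qe, Pool.Agent.Helper73.RF.eps] <;> norm_num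

theorem sub_coe {T : ℝ} (f g : BB T) (p : Om T) : (f - g).1 p = f.1 p - g.1 p := rfl

theorem com0 {T : ℝ} {a b c a' b' c' : HH} {d d' : ℝ} (f : BB T) (h1 : a * a' - a' * a = 0)
    (h2 : b * b' - b' * b = 0) (h3 : c' * c - c * c' = 0) :
    derB T (vf a b c d) (derB T (vf a' b' c' d') f) =
      derB T (vf a' b' c' d') (derB T (vf a b c d) f) := by
  rw [← sub_eq_zero]
  apply Subtype.ext
  funext p
  have h := bracket_vf a b c a' b' c' d d' f.2 p
  rw [h1, h2, h3] at h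
  rw [sub_coe]
  refine h.trans ?_
  have : ((p.1.1 * 0, p.1.2.1 * 0 + 0 * p.1.2.1, 0) : W) = 0 := by
    simp
  rw [this, map_zero]
  rfl

theorem sum3 {T : ℝ} (e : Fin 3 → ℝ) (X : Fin 3 → VF) (f : BB T) (p : Om T) :
    (∑ k, e k • derB T (X k) f : BB T).1 p = fderiv ℝ (exT f.1) p (∑ k, e k • (X k).X p) := by
  rw [map_sum, AddSubmonoidClass.coe_finsetSum, Finset.sum_apply]
  refine Finset.sum_congr rfl fun k _ => ?_
  rw [map_smul]
  rfl

theorem d2 : D2Stmt := by
  intro T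
  refine ⟨fun i j f => ?_, fun i j f => ?_, fun i j f => ?_, fun i j f => ?_, fun i j f => ?_,
    fun i j f => ?_, fun i f => ?_, fun i f => ?_, fun i f => ?_⟩
  · apply Subtype.ext
    funext p
    have h := bracket_vf (T := T) (qe i) 0 0 (qe j) 0 0 0 0 (f : BB T).2 p
    refine h.trans ?_
    have h2 := sum3 (T := T) (Pool.Agent.Helper73.RF.eps i j) (fun k => vf (qe k) 0 0 0) f p
    change _ = (2 : ℝ) * (∑ k, Pool.Agent.Helper73.RF.eps i j k • derB T (vf (qe k) 0 0 0) f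
      : BB T).1 p
    rw [h2, ← smul_eq_mul (2 : ℝ) _, ← (fderiv ℝ (exT (f : BB T).1) p).map_smul, qe_comm]
    congr 1
    refine Prod.ext ?_ (Prod.ext ?_ ?_)
    · simp [vf, Finset.mul_sum, Prod.fst_sum]
    · simp [vf, Prod.fst_sum, Prod.snd_sum]
    · simp [vf, Prod.snd_sum]
  · apply Subtype.ext
    funext p
    have h := bracket_vf (T := T) 0 ((1 / 2 : ℝ) • qe i) 0 0 ((1 / 2 : ℝ) • qe j) 0 0 0
      (f : BB T).2 p
    refine h.trans ?_
    have h2 := sum3 (T := T) (Pool.Agent.Helper73.RF.eps i j)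
      (fun k => vf 0 ((1 / 2 : ℝ) • qe k) 0 0) f p
    change _ = (∑ k, Pool.Agent.Helper73.RF.eps i j k • derB T (vf 0 ((1 / 2 : ℝ) • qe k) 0 0) f
      : BB T).1 p
    rw [h2]
    congr 1
    have e : ((1 / 2 : ℝ) • qe i) * ((1 / 2 : ℝ) • qe j) -
        ((1 / 2 : ℝ) • qe j) * ((1 / 2 : ℝ) • qe i) =
        ∑ k, Pool.Agent.Helper73.RF.eps i j k • ((1 / 2 : ℝ) • qe k) := by
      have := congrArg (fun z => (1 / 4 : ℝ) • z) (qe_comm i j)
      simp only [smul_sub, smul_smul, Finset.smul_sum] at this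
      simp only [smul_mul_smul_comm, smul_smul]
      norm_num at this ⊢
      rw [this]
      refine Finset.sum_congr rfl fun k _ => ?_
      congr 1
      ring
    rw [e]
    refine Prod.ext ?_ (Prod.ext ?_ ?_)
    · simp [vf, Prod.fst_sum]
    · simp [vf, Finset.mul_sum, Prod.fst_sum, Prod.snd_sum]
    · simp [vf, Prod.snd_sum]
  · apply Subtype.ext
    funext p
    have h := bracket_vf (T := T) 0 0 ((-(1 / 2) : ℝ) • qe i) 0 0 ((-(1 / 2) : ℝ) • qe j) 0 0
      (f : BB T).2 p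
    refine h.trans ?_
    have h2 := sum3 (T := T) (Pool.Agent.Helper73.RF.eps i j)
      (fun k => vf 0 0 ((-(1 / 2) : ℝ) • qe k) 0) f p
    change _ = (∑ k, Pool.Agent.Helper73.RF.eps i j k •
      derB T (vf 0 0 ((-(1 / 2) : ℝ) • qe k) 0) f : BB T).1 p
    rw [h2]
    congr 1
    have e : ((-(1 / 2) : ℝ) • qe j) * ((-(1 / 2) : ℝ) • qe i) -
        ((-(1 / 2) : ℝ) • qe i) * ((-(1 / 2) : ℝ) • qe j) =
        ∑ k, Pool.Agent.Helper73.RF.eps i j k • ((-(1 / 2) : ℝ) • qe k) := by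
      have := congrArg (fun z => (-(1 / 4) : ℝ) • z) (qe_comm i j)
      simp only [smul_sub, smul_smul, Finset.smul_sum] at this
      simp only [smul_mul_smul_comm, smul_smul]
      have h4 : ((-(1 / 2) : ℝ) * -(1 / 2)) • (qe j * qe i) -
          ((-(1 / 2) : ℝ) * -(1 / 2)) • (qe i * qe j) =
          (-(1 / 4) : ℝ) • (qe i * qe j) - (-(1 / 4) : ℝ) • (qe j * qe i) := by
        module
      rw [h4, this]
      refine Finset.sum_congr rfl fun k _ => ?_
      congr 1
      ring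
    rw [e]
    refine Prod.ext ?_ (Prod.ext ?_ ?_)
    · simp [vf, Prod.fst_sum]
    · simp [vf, Finset.sum_mul, Prod.fst_sum, Prod.snd_sum]
    · simp [vf, Prod.snd_sum]
  · exact com0 (f : BB T) (by simp) (by simp) (by simp)
  · exact com0 (f : BB T) (by simp) (by simp) (by simp)
  · exact com0 (f : BB T) (by simp) (by simp) (by simp)
  · exact com0 (f : BB T) (by simp) (by simp) (by simp)
  · exact com0 (f : BB T) (by simp) (by simp) (by simp)
  · exact com0 (f : BB T) (by simp) (by simp) (by simp)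

end Pool.Agent.Helper62.RF
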