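import Pool.Agent.Helper73.RF.GoalsC

/-!
# Packet YOM of project RF (helper73): evolution of the connection form
-/

set_option autoImplicit false

open Finset

namespace Pool.Agent.Helper62.RF

open Pool.Agent.Helper73.RF

theorem dsum_apply {B : Type} [CommRing B] [Algebra ℝ B] {ι : Type} (s : Finset ι)
    (D : ι → Derivation ℝ B B) (f : B) : (∑ i ∈ s, D i) f = ∑ i ∈ s, D i f := by
  have h : ∀ D' : Derivation ℝ B B, D' f = Derivation.coeFnAddMonoidHom D' f := fun _ => rfl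
  rw [h, map_sum, Finset.sum_apply]
  rfl

variable {T : ℝ} (P : BA T) (A θ S0 : Fin 3 → Fin 3 → P.B)

/-- `L_b f` -/
noncomputable def Lf (b : Fin 3) (f : P.B) : P.B :=
  (∑ i, A b i * P.E i f) + ∑ k, FR.om P.E A θ b k * P.U k f

/-- `H_a f` as an element of `P.B` -/
noncomputable def Hb (a : Fin 3) (f : P.B) : P.B := (P.toFBD A θ S0).H a f

/-- `S_ab` as an element of `P.B` -/
noncomputable def Sb (a b : Fin 3) : P.B := (P.toFBD A θ S0).S a b

theorem H_apply (a : Fin 3) (f : P.B) :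
    Hb P A θ S0 a f = ∑ b, P.R a b * Lf P A θ b f := by
  change (∑ b, P.R a b • (∑ i, A b i • P.E i + ∑ k, FR.om P.E A θ b k • P.U k)) f = _
  rw [dsum_apply]
  refine Finset.sum_congr rfl fun b _ => ?_
  rw [Derivation.smul_apply, Derivation.add_apply, dsum_apply, dsum_apply]
  rfl

theorem D_H (hP : P.Ax) (hDA : ∀ a i, P.Dt (A a i) = ∑ b, S0 a b * A b i) (a : Fin 3) (f : P.B) :
    P.Dt (Hb P A θ S0 a f) = Hb P A θ S0 a (P.Dt f) +
      ∑ b, P.R a b * ((∑ i, (∑ c, S0 b c * A c i) * P.E i f) +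
        ∑ k, P.Dt (FR.om P.E A θ b k) * P.U k f) := by
  rw [H_apply, H_apply, map_sum, ← Finset.sum_add_distrib]
  refine Finset.sum_congr rfl fun b _ => ?_
  rw [Derivation.leibniz, hP.DR, smul_zero, add_zero, smul_eq_mul, ← mul_add]
  congr 1
  simp only [Lf, map_add, map_sum, Derivation.leibniz, hP.DE, hP.DU, hDA, smul_eq_mul]
  simp only [Finset.sum_add_distrib]
  have e1 : ∑ x, P.E x f * ∑ b_1, S0 b b_1 * A b_1 x = ∑ x, (∑ c, S0 b c * A c x) * P.E x f :=
    Finset.sum_congr rfl fun x _ => mul_comm _ _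
  have e2 : ∑ x, P.U x f * P.Dt (FR.om P.E A θ b x) = ∑ x, P.Dt (FR.om P.E A θ b x) * P.U x f :=
    Finset.sum_congr rfl fun x _ => mul_comm _ _
  rw [e1, e2]
  ring

theorem S_H (hP : P.Ax) (a : Fin 3) (f : P.B) :
    ∑ b, Sb P A θ S0 a b * Hb P A θ S0 b f =
      ∑ c, ∑ d, P.R a c * S0 c d * Lf P A θ d f := by
  have e : ∀ b, Sb P A θ S0 a b * Hb P A θ S0 b f =
      ∑ c, ∑ d, ∑ e, P.R a c * S0 c d * Lf P A θ e f * (P.R b d * P.R b e) := by
    intro b
    rw [H_apply]
    change (∑ c, ∑ d, P.R a c * P.R b d * S0 c d) * _ = _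
    rw [Finset.sum_mul]
    refine Finset.sum_congr rfl fun c _ => ?_
    rw [Finset.sum_mul]
    refine Finset.sum_congr rfl fun d _ => ?_
    rw [Finset.mul_sum]
    refine Finset.sum_congr rfl fun e _ => ?_
    ring
  rw [Finset.sum_congr rfl fun b _ => e b, Finset.sum_comm]
  refine Finset.sum_congr rfl fun c _ => ?_
  rw [Finset.sum_comm]
  refine Finset.sum_congr rfl fun d _ => ?_
  rw [Finset.sum_comm]
  have e2 : ∀ e, ∑ b, P.R a c * S0 c d * Lf P A θ e f * (P.R b d * P.R b e) =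
      P.R a c * S0 c d * Lf P A θ e f * (if d = e then 1 else 0) := by
    intro e
    rw [← Finset.mul_sum, hP.RtR]
  rw [Finset.sum_congr rfl fun e _ => e2 e]
  simp

/-- evolution of the connection form -/
theorem conn (hP : P.Ax) (hDA : ∀ a i, P.Dt (A a i) = ∑ b, S0 a b * A b i)
    (hF : (P.toFBD A θ S0).Full) : ∀ b l, P.Dt (FR.om P.E A θ b l) =
      ∑ c, S0 b c * FR.om P.E A θ c l - ∑ a, ∑ k, P.R a b * P.R k l * P.Yb A θ S0 a k := by
  have key : ∀ a l, P.Yb A θ S0 a l +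
      ∑ b, ∑ k, P.R a b * (P.Dt (FR.om P.E A θ b k) - ∑ c, S0 b c * FR.om P.E A θ c k) *
        P.R l k = 0 := by
    intro a
    refine (hF.ind (fun _ => 0) (fun l => P.Yb A θ S0 a l +
      ∑ b, ∑ k, P.R a b * (P.Dt (FR.om P.E A θ b k) - ∑ c, S0 b c * FR.om P.E A θ c k) *
        P.R l k) fun f => ?_).2
    have e1 : P.Dt (Hb P A θ S0 a f) = Hb P A θ S0 a (P.Dt f) +
      (∑ b, Sb P A θ S0 a b * Hb P A θ S0 b f) + ∑ k, P.Yb A θ S0 a k * P.V k f := hF.DHY a f
    have e2 := D_H P A θ S0 hP hDA a f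
    have e3 := S_H P A θ S0 hP a f
    rw [e2, e3] at e1
    have e4 : ∑ b, P.R a b * ((∑ i, (∑ c, S0 b c * A c i) * P.E i f) +
        ∑ k, P.Dt (FR.om P.E A θ b k) * P.U k f) = (∑ c, ∑ d, P.R a c * S0 c d * Lf P A θ d f) +
        ∑ b, ∑ k, P.R a b *
          (P.Dt (FR.om P.E A θ b k) - ∑ c, S0 b c * FR.om P.E A θ c k) * P.U k f := by
      rw [← Finset.sum_add_distrib]
      refine Finset.sum_congr rfl fun b _ => ?_
      simp only [Lf, mul_assoc, ← Finset.mul_sum, ← mul_add]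
      congr 1
      simp only [sub_mul, Finset.sum_sub_distrib, mul_add, Finset.sum_add_distrib,
        Finset.mul_sum, Finset.sum_mul]
      rw [Finset.sum_comm, Finset.sum_comm (f := fun x i => S0 b i * FR.om P.E A θ i x *
        P.U x f)]
      simp only [mul_assoc]
      ring
    have e5 : ∑ l, (∑ b, ∑ k, P.R a b *
        (P.Dt (FR.om P.E A θ b k) - ∑ c, S0 b c * FR.om P.E A θ c k) * P.R l k) * P.V l f =
        - ∑ b, ∑ k, P.R a b *
          (P.Dt (FR.om P.E A θ b k) - ∑ c, S0 b c * FR.om P.E A θ c k) * P.U k f := by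
      simp only [Finset.sum_mul]
      rw [Finset.sum_comm, ← Finset.sum_neg_distrib]
      refine Finset.sum_congr rfl fun b _ => ?_
      rw [Finset.sum_comm, ← Finset.sum_neg_distrib]
      refine Finset.sum_congr rfl fun k _ => ?_
      rw [hP.UeV, mul_neg, neg_neg, Finset.mul_sum]
      exact Finset.sum_congr rfl fun l _ => by ring
    have e6 : ∑ l, (P.Yb A θ S0 a l + ∑ b, ∑ k, P.R a b *
        (P.Dt (FR.om P.E A θ b k) - ∑ c, S0 b c * FR.om P.E A θ c k) * P.R l k) * P.V l f =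
        0 := by
      simp only [add_mul]
      rw [Finset.sum_add_distrib, e5]
      rw [e4] at e1
      linear_combination -e1
    have e8 : ∑ i, (0 : P.B) * Hb P A θ S0 i f + ∑ l, (P.Yb A θ S0 a l + ∑ b, ∑ k, P.R a b *
        (P.Dt (FR.om P.E A θ b k) - ∑ c, S0 b c * FR.om P.E A θ c k) * P.R l k) * P.V l f =
        0 := by
      rw [e6, Finset.sum_congr rfl fun i _ => zero_mul (Hb P A θ S0 i f),
        Finset.sum_const_zero, zero_add]
    exact e8
  intro b l
  have e1 : ∑ a, ∑ k, P.R a b * P.R k l * P.Yb A θ S0 a k =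
      - (P.Dt (FR.om P.E A θ b l) - ∑ c, S0 b c * FR.om P.E A θ c l) := by
    have e2 : ∀ a k, P.R a b * P.R k l * P.Yb A θ S0 a k = - ∑ b', ∑ k', P.R a b' * P.R a b *
        (P.R k l * P.R k k') *
        (P.Dt (FR.om P.E A θ b' k') - ∑ c, S0 b' c * FR.om P.E A θ c k') := by
      intro a k
      rw [eq_neg_of_add_eq_zero_left (key a k), mul_neg, Finset.mul_sum]
      congr 1
      refine Finset.sum_congr rfl fun b' _ => ?_
      rw [Finset.mul_sum]
      exact Finset.sum_congr rfl fun k' _ => by ring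
    rw [Finset.sum_congr rfl fun a _ => Finset.sum_congr rfl fun k _ => e2 a k]
    simp only [Finset.sum_neg_distrib]
    congr 1
    have e3 : ∀ b' k', ∑ a, ∑ k, P.R a b' * P.R a b * (P.R k l * P.R k k') *
        (P.Dt (FR.om P.E A θ b' k') - ∑ c, S0 b' c * FR.om P.E A θ c k') =
        (if b' = b then 1 else 0) * (if l = k' then 1 else 0) *
        (P.Dt (FR.om P.E A θ b' k') - ∑ c, S0 b' c * FR.om P.E A θ c k') := by
      intro b' k'
      rw [← hP.RtR, ← hP.RtR]
      simp only [← Finset.sum_mul, ← Finset.mul_sum]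
    calc ∑ a, ∑ k, ∑ b', ∑ k', P.R a b' * P.R a b * (P.R k l * P.R k k') *
        (P.Dt (FR.om P.E A θ b' k') - ∑ c, S0 b' c * FR.om P.E A θ c k')
        = ∑ b', ∑ k', ∑ a, ∑ k, P.R a b' * P.R a b * (P.R k l * P.R k k') *
        (P.Dt (FR.om P.E A θ b' k') - ∑ c, S0 b' c * FR.om P.E A θ c k') := by
          rw [Finset.sum_congr rfl fun a _ => Finset.sum_comm, Finset.sum_comm]
          refine Finset.sum_congr rfl fun b' _ => ?_
          rw [Finset.sum_congr rfl fun a _ => Finset.sum_comm, Finset.sum_comm]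
      _ = P.Dt (FR.om P.E A θ b l) - ∑ c, S0 b c * FR.om P.E A θ c l := by
          rw [Finset.sum_congr rfl fun b' _ => Finset.sum_congr rfl fun k' _ => e3 b' k']
          simp
  rw [e1]
  ring

theorem yom (h1 : Alg1Stmt) (h2 : Alg2Stmt) (h3 : InsaStmt) : YomStmt := by
  intro T P hP A θ S0 h
  obtain ⟨hB, hom, hN⟩ := h3 T P hP A θ S0 h
  obtain ⟨a1, a2, a3⟩ := h1 T _ hB
  have hF : (P.toFBD A θ S0).Full := h2 T _ hB a1 a2 a3
  have hs : P.sb A θ S0 = ∑ i, FR.N P.E A θ i i := by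
    have e : P.sb A θ S0 = ∑ i, ∑ l, ∑ k, P.R i l * P.R i k * FR.N P.E A θ l k := rfl
    rw [e, Finset.sum_comm]
    refine Finset.sum_congr rfl fun l _ => ?_
    rw [Finset.sum_comm]
    have e2 : ∀ k, ∑ i, P.R i l * P.R i k * FR.N P.E A θ l k =
        (if l = k then 1 else 0) * FR.N P.E A θ l k := by
      intro k
      rw [← Finset.sum_mul, hP.RtR]
    rw [Finset.sum_congr rfl fun k _ => e2 k]
    simp
  refine ⟨hF, conn P A θ S0 hP h.DA hF, hs, ?_⟩
  · intro hS i j
    change (∑ c, ∑ d, P.R i c * P.R j d * S0 c d : P.B) = (if i = j then P.sb A θ S0 else 0) -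
      ∑ l, ∑ k, P.R i l * P.R j k * FR.N P.E A θ l k
    rw [hs]
    have e3 : ∀ c d, P.R i c * P.R j d * S0 c d =
        (if c = d then P.R i c * P.R j d * ∑ i, FR.N P.E A θ i i else 0) -
        P.R i c * P.R j d * FR.N P.E A θ c d := by
      intro c d
      rw [hS, FR.Ricf]
      split_ifs <;> ring
    rw [Finset.sum_congr rfl fun c _ => Finset.sum_congr rfl fun d _ => e3 c d]
    simp only [Finset.sum_sub_distrib]
    congr 1
    have e4 : ∀ c, ∑ d, (if c = d then P.R i c * P.R j d * ∑ i, FR.N P.E A θ i i else 0) =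
        P.R i c * P.R j c * ∑ i, FR.N P.E A θ i i := by
      intro c
      simp
    rw [Finset.sum_congr rfl fun c _ => e4 c, ← Finset.sum_mul, hP.RRt]
    split_ifs <;> simp

end Pool.Agent.Helper62.RF
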