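import Pool.Agent.Helper73.RF.GoalsE
import Pool.Agent.Helper62.RF.YOM

/-!
# Packet EXC of project RF (helper73): bounded curvature bounds all word derivatives of the frame
-/

set_option autoImplicit false

open Finset Pool.Agent.Helper47.RF

namespace Pool.Agent.Helper62.RF

open Pool.Agent.Helper73.RF

section WW

variable {T : ℝ} (F : FBD T)

/-- bounded -/
def Bdd (X : F.B) : Prop := ∃ C, ∀ z t, |F.ev z t X| ≤ C

/-- words of length at most `n` in `H`, `V` are bounded -/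
def WW : ℕ → F.B → Prop
  | 0, X => Bdd F X
  | n + 1, X => Bdd F X ∧ (∀ a, WW n (F.H a X)) ∧ ∀ k, WW n (F.V k X)

theorem Bdd_add {X Y : F.B} (h : Bdd F X) (h' : Bdd F Y) : Bdd F (X + Y) := by
  obtain ⟨C, hC⟩ := h
  obtain ⟨D, hD⟩ := h'
  refine ⟨C + D, fun z t => ?_⟩
  rw [map_add]
  exact (abs_add_le _ _).trans (add_le_add (hC z t) (hD z t))

theorem Bdd_mul {X Y : F.B} (h : Bdd F X) (h' : Bdd F Y) : Bdd F (X * Y) := by
  obtain ⟨C, hC⟩ := h
  obtain ⟨D, hD⟩ := h'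
  refine ⟨|C| * |D|, fun z t => ?_⟩
  rw [map_mul, abs_mul]
  exact mul_le_mul ((hC z t).trans (le_abs_self _)) ((hD z t).trans (le_abs_self _))
    (abs_nonneg _) (abs_nonneg _)

theorem Bdd_smul {X : F.B} (c : ℝ) (h : Bdd F X) : Bdd F (c • X) := by
  obtain ⟨C, hC⟩ := h
  refine ⟨|c| * C, fun z t => ?_⟩
  rw [map_smul, smul_eq_mul, abs_mul]
  exact mul_le_mul_of_nonneg_left (hC z t) (abs_nonneg _)

theorem Bdd_zero : Bdd F (0 : F.B) := ⟨0, fun z t => by simp⟩

theorem WW_bdd {n : ℕ} {X : F.B} (h : WW F n X) : Bdd F X := by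
  cases n with
  | zero => exact h
  | succ n => exact h.1

theorem WW_mono (n : ℕ) : ∀ {X : F.B}, WW F (n + 1) X → WW F n X := by
  induction n with
  | zero => exact fun h => h.1
  | succ n ih => exact fun h => ⟨h.1, fun a => ih (h.2.1 a), fun k => ih (h.2.2 k)⟩

theorem WW_add (n : ℕ) : ∀ {X Y : F.B}, WW F n X → WW F n Y → WW F n (X + Y) := by
  induction n with
  | zero => exact fun h h' => Bdd_add F h h'
  | succ n ih =>
    intro X Y h h'
    refine ⟨Bdd_add F h.1 h'.1, fun a => ?_, fun k => ?_⟩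
    · rw [map_add]; exact ih (h.2.1 a) (h'.2.1 a)
    · rw [map_add]; exact ih (h.2.2 k) (h'.2.2 k)

theorem WW_smul (n : ℕ) : ∀ {X : F.B} (c : ℝ), WW F n X → WW F n (c • X) := by
  induction n with
  | zero => exact fun c h => Bdd_smul F c h
  | succ n ih =>
    intro X c h
    refine ⟨Bdd_smul F c h.1, fun a => ?_, fun k => ?_⟩
    · rw [Derivation.map_smul]; exact ih c (h.2.1 a)
    · rw [Derivation.map_smul]; exact ih c (h.2.2 k)

theorem WW_zero (n : ℕ) : WW F n (0 : F.B) := by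
  induction n with
  | zero => exact Bdd_zero F
  | succ n ih =>
    refine ⟨Bdd_zero F, fun a => ?_, fun k => ?_⟩
    · rw [map_zero]; exact ih
    · rw [map_zero]; exact ih

theorem WW_mul (n : ℕ) : ∀ {X Y : F.B}, WW F n X → WW F n Y → WW F n (X * Y) := by
  induction n with
  | zero => exact fun h h' => Bdd_mul F h h'
  | succ n ih =>
    intro X Y h h'
    refine ⟨Bdd_mul F h.1 h'.1, fun a => ?_, fun k => ?_⟩
    · rw [Derivation.leibniz, smul_eq_mul, smul_eq_mul]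
      exact WW_add F n (ih (WW_mono F n h) (h'.2.1 a)) (ih (WW_mono F n h') (h.2.1 a))
    · rw [Derivation.leibniz, smul_eq_mul, smul_eq_mul]
      exact WW_add F n (ih (WW_mono F n h) (h'.2.2 k)) (ih (WW_mono F n h') (h.2.2 k))

theorem WW_sum (n : ℕ) {ι : Type} (s : Finset ι) (X : ι → F.B) (h : ∀ i ∈ s, WW F n (X i)) :
    WW F n (∑ i ∈ s, X i) :=
  Finset.sum_induction X (WW F n) (fun _ _ => WW_add F n) (WW_zero F n) h

/-- all words in `H`, `V` are bounded -/
def WI (X : F.B) : Prop := ∀ n, WW F n X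

theorem WI_H {X : F.B} (h : WI F X) (a : Fin 3) : WI F (F.H a X) := fun n => (h (n + 1)).2.1 a

theorem WI_V {X : F.B} (h : WI F X) (k : Fin 3) : WI F (F.V k X) := fun n => (h (n + 1)).2.2 k

/-- the span of the derivatives of the curvature -/
def SM : Submodule ℝ F.B :=
  Submodule.span ℝ {x | ∃ (w : List (Fin 3)) (i j : Fin 3), x = F.Hw w (F.M i j)}

theorem H_SM (a : Fin 3) : ∀ x ∈ SM F, F.H a x ∈ SM F := by
  intro x hx
  refine Submodule.span_induction (p := fun x _ => F.H a x ∈ SM F) ?_ ?_ ?_ ?_ hx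
  · rintro x ⟨w, i, j, rfl⟩
    exact Submodule.subset_span ⟨a :: w, i, j, rfl⟩
  · rw [map_zero]; exact Submodule.zero_mem _
  · intro x y _ _ h1 h2
    rw [map_add]; exact Submodule.add_mem _ h1 h2
  · intro c x _ h1
    rw [Derivation.map_smul]; exact Submodule.smul_mem _ c h1

theorem V_SM (hF : F.Full) (k : Fin 3) : ∀ x ∈ SM F, F.V k x ∈ SM F := by
  intro x hx
  refine Submodule.span_induction (p := fun x _ => F.V k x ∈ SM F) ?_ ?_ ?_ ?_ hx
  · rintro x ⟨w, i, j, rfl⟩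
    induction w with
    | nil =>
      change F.V k (F.M i j) ∈ SM F
      rw [hF.VM]
      refine Submodule.sum_mem _ fun a _ => Submodule.add_mem _ (Submodule.smul_mem _ _ ?_)
        (Submodule.smul_mem _ _ ?_)
      · exact Submodule.subset_span ⟨[], a, j, rfl⟩
      · exact Submodule.subset_span ⟨[], i, a, rfl⟩
    | cons a w ih =>
      change F.V k (F.H a (F.Hw w (F.M i j))) ∈ SM F
      have h := hF.VH k a (F.Hw w (F.M i j))
      rw [sub_eq_iff_eq_add.1 h]
      refine Submodule.add_mem _ (Submodule.sum_mem _ fun b _ => Submodule.smul_mem _ _ ?_)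
        (H_SM F a _ ih)
      exact Submodule.subset_span ⟨b :: w, i, j, rfl⟩
  · rw [map_zero]; exact Submodule.zero_mem _
  · intro x y _ _ h1 h2
    rw [map_add]; exact Submodule.add_mem _ h1 h2
  · intro c x _ h1
    rw [Derivation.map_smul]; exact Submodule.smul_mem _ c h1

theorem SM_Bdd (hb : ∀ w i j, Bdd F (F.Hw w (F.M i j))) : ∀ x ∈ SM F, Bdd F x := by
  intro x hx
  refine Submodule.span_induction (p := fun x _ => Bdd F x) ?_ ?_ ?_ ?_ hx
  · rintro x ⟨w, i, j, rfl⟩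
    exact hb w i j
  · exact Bdd_zero F
  · exact fun x y _ _ => Bdd_add F
  · exact fun c x _ => Bdd_smul F c

theorem SM_WI (hF : F.Full) (hb : ∀ w i j, Bdd F (F.Hw w (F.M i j))) :
    ∀ x ∈ SM F, WI F x := by
  intro x hx n
  induction n generalizing x with
  | zero => exact SM_Bdd F hb x hx
  | succ n ih => exact ⟨SM_Bdd F hb x hx, fun a => ih _ (H_SM F a x hx),
      fun k => ih _ (V_SM F hF k x hx)⟩

theorem M_WI (hF : F.Full) (hb : ∀ w i j, Bdd F (F.Hw w (F.M i j))) (i j : Fin 3) :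
    WI F (F.M i j) := SM_WI F hF hb _ (Submodule.subset_span ⟨[], i, j, rfl⟩)

theorem Ric_WI (hF : F.Full) (hb : ∀ w i j, Bdd F (F.Hw w (F.M i j))) (i j : Fin 3) :
    WI F (F.Ric i j) := by
  intro n
  rw [FBD.Ric, sub_eq_add_neg]
  refine WW_add F n ?_ ?_
  · split_ifs
    · exact WW_sum F n _ _ fun i _ => M_WI F hF hb i i n
    · exact WW_zero F n
  · rw [← neg_one_smul ℝ]
    exact WW_smul F n _ (M_WI F hF hb i j n)

theorem Y_WI (hF : F.Full) (hR : F.IsRF) (hb : ∀ w i j, Bdd F (F.Hw w (F.M i j))) (a k : Fin 3) :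
    WI F (F.Y a k) := by
  intro n
  rw [FBD.Y]
  refine WW_sum F n _ _ fun b _ => WW_sum F n _ _ fun c _ => WW_smul F n _ ?_
  rw [hR]
  exact WI_H F (Ric_WI F hF hb a c) b n

end WW

section JS

variable {T : ℝ} {u v : ℝ → HH → ℝ}

theorem JSmul (hu : JS T u) (hv : JS T v) : JS T (fun t x => u t x * v t x) :=
  ⟨hu.cd.mul hv.cd, fun t h1 h2 r x hr => by
    rw [hu.hom t h1 h2 r x hr, hv.hom t h1 h2 r x hr]⟩

theorem JSadd (hu : JS T u) (hv : JS T v) : JS T (fun t x => u t x + v t x) :=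
  ⟨hu.cd.add hv.cd, fun t h1 h2 r x hr => by
    rw [hu.hom t h1 h2 r x hr, hv.hom t h1 h2 r x hr]⟩

theorem JSneg (hu : JS T u) : JS T (fun t x => - u t x) :=
  ⟨hu.cd.neg, fun t h1 h2 r x hr => by rw [hu.hom t h1 h2 r x hr]⟩

theorem JSconst (c : ℝ) : JS T (fun _ _ => c) := ⟨contDiffOn_const, fun _ _ _ _ _ _ => rfl⟩

theorem Ew_congr {f g : HH → ℝ} (h : ∀ x, x ≠ 0 → f x = g x) (w : List (Fin 3)) :
    ∀ x, x ≠ 0 → Ew w f x = Ew w g x := by
  induction w with
  | nil => exact h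
  | cons i w ih =>
    intro x hx
    change fderiv ℝ (Ew w f) x (x * qe i) = fderiv ℝ (Ew w g) x (x * qe i)
    have : Ew w f =ᶠ[nhds x] Ew w g := by
      filter_upwards [isOpen_compl_singleton.mem_nhds (show x ∈ ({0}ᶜ : Set HH) from hx)] with y hy
      exact ih y hy
    rw [this.fderiv_eq]

theorem BW_congr {m : ℕ} (h : ∀ t, 0 < t → t < T → ∀ x, x ≠ 0 → u t x = v t x) (hu : BW T m u) :
    BW T m v := by
  intro w hw
  obtain ⟨C, hC⟩ := hu w hw
  refine ⟨C, fun t h1 h2 x hx => ?_⟩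
  rw [← Ew_congr (h t h1 h2) w x hx]
  exact hC t h1 h2 x hx

theorem BW_mono {m n : ℕ} (h : m ≤ n) (hu : BW T n u) : BW T m u :=
  fun w hw => hu w (hw.trans h)

/-- smooth with bounded words -/
structure GG (T : ℝ) (m : ℕ) (u : ℝ → HH → ℝ) : Prop where
  js : JS T u
  bw : BW T m u

theorem GGmul (hB : BwrStmt) {m : ℕ} (hu : GG T m u) (hv : GG T m v) :
    GG T m (fun t x => u t x * v t x) :=
  ⟨JSmul hu.js hv.js, ((hB T m u v hu.js hv.js).1 hu.bw hv.bw).1⟩

theorem GGadd (hB : BwrStmt) {m : ℕ} (hu : GG T m u) (hv : GG T m v) :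
    GG T m (fun t x => u t x + v t x) :=
  ⟨JSadd hu.js hv.js, ((hB T m u v hu.js hv.js).1 hu.bw hv.bw).2.1⟩

theorem GGneg (hB : BwrStmt) {m : ℕ} (hu : GG T m u) : GG T m (fun t x => - u t x) :=
  ⟨JSneg hu.js, ((hB T m u u hu.js hu.js).1 hu.bw hu.bw).2.2⟩

theorem GGconst (hB : BwrStmt) (m : ℕ) (c : ℝ) : GG T m (fun _ _ => c) :=
  ⟨JSconst c, (hB T m _ _ (JSconst 0) (JSconst 0)).2.1 c⟩

theorem GGsum (hB : BwrStmt) {m : ℕ} {ι : Type} (s : Finset ι) (u : ι → ℝ → HH → ℝ)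
    (h : ∀ i ∈ s, GG T m (u i)) : GG T m (fun t x => ∑ i ∈ s, u i t x) := by
  classical
  induction s using Finset.induction_on with
  | empty => simpa using GGconst (T := T) hB m 0
  | insert i s hi ih =>
    simp only [Finset.sum_insert hi]
    exact GGadd hB (h i (Finset.mem_insert_self i s))
      (ih fun j hj => h j (Finset.mem_insert_of_mem hj))

end JS

section at1

variable {T : ℝ}

theorem mem1 {t : ℝ} {x : HH} (h1 : 0 < t) (h2 : t < T) (hx : x ≠ 0) :
    ((x, 1, t) : W) ∈ Om T := ⟨hx, one_ne_zero, h1, h2⟩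

/-- evaluation at `(x, 1, t)` -/
def ev1 {t : ℝ} {x : HH} (h1 : 0 < t) (h2 : t < T) (hx : x ≠ 0) : (baC T).B →ₐ[ℝ] ℝ :=
  ({ toFun := fun f => f.1 ⟨(x, 1, t), mem1 h1 h2 hx⟩
     map_one' := rfl
     map_mul' := fun _ _ => rfl
     map_zero' := rfl
     map_add' := fun _ _ => rfl
     commutes' := fun _ => rfl } : BB T →ₐ[ℝ] ℝ)

theorem at1_eq {t : ℝ} {x : HH} (h1 : 0 < t) (h2 : t < T) (hx : x ≠ 0) (f : (baC T).B) :
    at1 f t x = ev1 h1 h2 hx f := exT_of_mem _ (mem1 h1 h2 hx)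

theorem ev1_emb {t : ℝ} {x : HH} (h1 : 0 < t) (h2 : t < T) (hx : x ≠ 0) {u : ℝ → HH → ℝ}
    (hu : JS T u) : ev1 h1 h2 hx (emb u hu) = u t x := rfl

theorem ev_emb (z : ZZ) (t : TI T) {u : ℝ → HH → ℝ}
    (hu : JS T u) : (baC T).ev z t (emb u hu) = u t (z.1 : HH) := rfl


/-- values of the derivatives `E i` -/
theorem ev1_E (hD6 : D6Stmt) {A θ : ℝ → MF} (hA : JM T A) (ht : JM T θ)
    (hinv : ∀ t, 0 < t → t < T → ∀ x, A t x * θ t x = 1) {t : ℝ} {x : HH}
    (h1 : 0 < t) (h2 : t < T) (hx : x ≠ 0) (i : Fin 3) (X : (baC T).B) :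
    ev1 h1 h2 hx ((baC T).E i X) = ∑ b, θ t x i b * (ev1 h1 h2 hx ((flB hA ht).H b X) +
      ∑ k, ev1 h1 h2 hx (FR.om (baC T).E (embM hA) (embM ht) b k) *
        ev1 h1 h2 hx ((baC T).V k X)) := by
  obtain ⟨-, -, -, hR1, hU1, -⟩ := hD6 T
  have hH : ∀ b, ev1 h1 h2 hx ((flB hA ht).H b X) = (∑ j, A t x b j * ev1 h1 h2 hx ((baC T).E j X)) -
      ∑ k, ev1 h1 h2 hx (FR.om (baC T).E (embM hA) (embM ht) b k) *
        ev1 h1 h2 hx ((baC T).V k X) := by
    intro b
    have e := H_apply (baC T) (embM hA) (embM ht)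
      (FR.Ricf (baC T).E (embM hA) (embM ht)) b X
    change ev1 h1 h2 hx (Hb (baC T) (embM hA) (embM ht)
      (FR.Ricf (baC T).E (embM hA) (embM ht)) b X) = _
    rw [e, map_sum]
    have e2 : ∀ c, ev1 h1 h2 hx ((baC T).R b c * Lf (baC T) (embM hA) (embM ht) c X) =
        if b = c then ev1 h1 h2 hx (Lf (baC T) (embM hA) (embM ht) c X) else 0 := by
      intro c
      have h3 := hR1 b c t x h1 h2 hx
      rw [at1_eq h1 h2 hx] at h3
      rw [map_mul, h3]
      split_ifs <;> simp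
    rw [Finset.sum_congr rfl fun c _ => e2 c]
    simp only [Finset.sum_ite_eq, Finset.mem_univ, if_true]
    rw [Lf, map_add, map_sum, map_sum, sub_eq_add_neg, ← Finset.sum_neg_distrib]
    congr 1
    · refine Finset.sum_congr rfl fun k _ => ?_
      have h3 := hU1 X k t x h1 h2 hx
      rw [at1_eq h1 h2 hx, at1_eq h1 h2 hx] at h3
      rw [map_mul, h3, mul_neg]
  have h3 : θ t x * A t x = 1 := mul_eq_one_comm.1 (hinv t h1 h2 x)
  have h4 : ∀ j, ∑ b, θ t x i b * A t x b j = if i = j then 1 else 0 := by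
    intro j
    have := congrFun (congrFun h3 i) j
    rw [Matrix.mul_apply, Matrix.one_apply] at this
    exact this
  have h5 : ∀ b, ev1 h1 h2 hx ((flB hA ht).H b X) +
      ∑ k, ev1 h1 h2 hx (FR.om (baC T).E (embM hA) (embM ht) b k) *
        ev1 h1 h2 hx ((baC T).V k X) = ∑ j, A t x b j * ev1 h1 h2 hx ((baC T).E j X) := by
    intro b
    rw [hH b]
    ring
  rw [Finset.sum_congr rfl fun b _ => by rw [h5 b]]
  simp only [Finset.mul_sum]
  rw [Finset.sum_comm]
  have h6 : ∀ j, ∑ b, θ t x i b * (A t x b j * ev1 h1 h2 hx ((baC T).E j X)) =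
      if i = j then ev1 h1 h2 hx ((baC T).E j X) else 0 := by
    intro j
    simp only [← mul_assoc, ← Finset.sum_mul]
    rw [h4 j]
    split_ifs <;> simp
  rw [Finset.sum_congr rfl fun j _ => h6 j]
  simp

theorem at1_bdd (hD6 : D6Stmt) {X : (baC T).B}
    (hX : ∃ C, ∀ (z : ZZ) (t : TI T), |(baC T).ev z t X| ≤ C) : BW T 0 (at1 X) := by
  obtain ⟨C, hC⟩ := hX
  obtain ⟨-, h2, -⟩ := hD6 T
  obtain ⟨hJS, hev, -, -⟩ := h2 X
  intro w hw
  have hw' : w = [] := List.length_eq_zero_iff.1 (Nat.le_zero.1 hw)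
  subst hw'
  refine ⟨C, fun t h1 h2 x hx => ?_⟩
  change |at1 X t x| ≤ C
  have hn : 0 < ‖x‖ := norm_pos_iff.2 hx
  have hy : ‖(‖x‖⁻¹ : ℝ) • x‖ = 1 := by
    rw [norm_smul, norm_inv, norm_norm, inv_mul_cancel₀ hn.ne']
  have h3 := hJS.hom t h1 h2 ‖x‖⁻¹ x (inv_pos.2 hn)
  have h4 := hev ⟨(‖x‖⁻¹ : ℝ) • x, by simpa using hy⟩ ⟨t, h1, h2⟩
  rw [← h3]
  change |at1 X (⟨t, h1, h2⟩ : TI T) (‖x‖⁻¹ • x)| ≤ C
  rw [h4]
  exact hC _ _

end at1

theorem exc (hCB : CbStmt) (hFLB : FlbStmt) (hNR : Nr0Stmt) (hD6 : D6Stmt) (hLNK : LnkStmt)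
    (hFJS : FjsStmt) (hBWR : BwrStmt) (hBWG : BwgStmt) (hDAX : DaxStmt) : ExcStmt := by
  intro T A θ hT hfl K hK
  have hsub : Set.Ioo 0 T ⊆ Set.Ico 0 T := Set.Ioo_subset_Ico_self
  obtain ⟨hA, ht, hR⟩ := hFJS T _ A θ hT hsub hfl
  obtain ⟨hF, hIsRF, -, -⟩ := hFLB T _ A θ hT hsub hfl hA ht
  obtain ⟨hBd0, -, -, -, -, hnear⟩ := hNR T A θ hT hfl hA ht
  have hinv : ∀ t, 0 < t → t < T → ∀ x, A t x * θ t x = 1 :=
    fun t h1 h2 x => hfl.inv t ⟨h1.le, h2⟩ x
  have hP := hDAX T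
  set S0 := FR.Ricf (baC T).E (embM hA) (embM ht) with hS0
  have hRe : ∀ a b, JS T (fun t x => RicF (A t) (θ t) x a b) := fun a b => hR a b
  -- the Ricci tensor
  have hS0e : ∀ a b, S0 a b = emb _ (hRe a b) := by
    intro a b
    refine hP.ext _ _ fun z t => ?_
    rw [(hLNK T A θ hA ht hinv z t).2 a b]
    rfl
  -- bounds for the curvature
  have hM : ∀ z t i j, |(flB hA ht).ev z t ((flB hA ht).M i j)| ≤ 9 * K := by
    intro z t i j
    have e : (flB hA ht).ev z t ((flB hA ht).M i j) = ∑ l, ∑ k, (baC T).ev z t ((baC T).R i l) *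
        (baC T).ev z t ((baC T).R j k) *
        (baC T).ev z t (FR.N (baC T).E (embM hA) (embM ht) l k) := by
      change (baC T).ev z t (∑ l, ∑ k, (baC T).R i l * (baC T).R j k *
        FR.N (baC T).E (embM hA) (embM ht) l k) = _
      simp only [map_sum, map_mul]
    have hr : ∀ a b, |(baC T).ev z t ((baC T).R a b)| ≤ 1 := by
      intro a b
      have h1 := congrArg ((baC T).ev z t) (hP.RRt a a)
      rw [if_pos rfl, map_sum, map_one] at h1
      simp only [map_mul] at h1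
      have h2 : (baC T).ev z t ((baC T).R a b) * (baC T).ev z t ((baC T).R a b) ≤ 1 := by
        rw [← h1]
        exact Finset.single_le_sum (f := fun c => (baC T).ev z t ((baC T).R a c) *
          (baC T).ev z t ((baC T).R a c)) (fun c _ => mul_self_nonneg _) (Finset.mem_univ b)
      exact abs_le_one_iff_mul_self_le_one.2 h2
    have hN : ∀ l k, |(baC T).ev z t (FR.N (baC T).E (embM hA) (embM ht) l k)| ≤ K := by
      intro l k
      rw [(hLNK T A θ hA ht hinv z t).1 l k]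
      exact hK t t.2.1.le t.2.2 _ (sph_ne z.1) l k
    rw [e]
    have hK0 : 0 ≤ K := (abs_nonneg _).trans (hN 0 0)
    have hterm : ∀ l k, |(baC T).ev z t ((baC T).R i l) * (baC T).ev z t ((baC T).R j k) *
        (baC T).ev z t (FR.N (baC T).E (embM hA) (embM ht) l k)| ≤ K := by
      intro l k
      rw [abs_mul, abs_mul]
      have h1 : |(baC T).ev z t ((baC T).R i l)| * |(baC T).ev z t ((baC T).R j k)| ≤ 1 :=
        mul_le_one₀ (hr i l) (abs_nonneg _) (hr j k)
      calc _ ≤ 1 * K := mul_le_mul h1 (hN l k) (abs_nonneg _) zero_le_one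
        _ = K := one_mul K
    calc _ ≤ ∑ l, |∑ k, (baC T).ev z t ((baC T).R i l) * (baC T).ev z t ((baC T).R j k) *
        (baC T).ev z t (FR.N (baC T).E (embM hA) (embM ht) l k)| := Finset.abs_sum_le_sum_abs _ _
      _ ≤ ∑ l : Fin 3, ∑ k : Fin 3, K := Finset.sum_le_sum fun l _ =>
        (Finset.abs_sum_le_sum_abs _ _).trans (Finset.sum_le_sum fun k _ => hterm l k)
      _ = 9 * K := by simp; ring
  have hb : ∀ w i j, Bdd (flB hA ht) ((flB hA ht).Hw w ((flB hA ht).M i j)) :=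
    hCB T _ hF hIsRF (9 * K) hM hBd0
  -- the connection form
  set om := FR.om (baC T).E (embM hA) (embM ht) with hom
  have hderA : ∀ a i t, 0 < t → t < T → ∀ x, x ≠ 0 → HasDerivAt (fun r => A r x a i)
      (∑ b, RicF (A t) (θ t) x a b * A t x b i) t := by
    intro a i t h1 h2 x hx
    exact ((hfl.flA a i).der [] x hx t ⟨h1.le, h2⟩).hasDerivAt (Ico_mem_nhds h1 h2)
  have hdert : ∀ i a t, 0 < t → t < T → ∀ x, x ≠ 0 → HasDerivAt (fun r => θ r x i a)
      (-∑ b, θ t x i b * RicF (A t) (θ t) x b a) t := by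
    intro i a t h1 h2 x hx
    exact ((hfl.flt i a).der [] x hx t ⟨h1.le, h2⟩).hasDerivAt (Ico_mem_nhds h1 h2)
  have hDA : ∀ a i, (baC T).Dt (embM hA a i) = ∑ b, S0 a b * embM hA b i := by
    intro a i
    obtain ⟨-, -, -, h4⟩ := (hD6 T).1 _ (hA a i)
    obtain ⟨hD, h5⟩ := h4 _ (hderA a i)
    refine Eq.trans h5 ?_
    refine hP.ext _ _ fun z t => ?_
    rw [map_sum]
    refine (ev_emb z t hD).trans ?_
    refine Finset.sum_congr rfl fun b _ => ?_
    rw [map_mul, hS0e]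
    rfl
  have hconn := conn (baC T) (embM hA) (embM ht) S0 hP hDA hF
  have hat : ∀ X : (baC T).B, JS T (at1 X) := fun X => ((hD6 T).2.1 X).1
  have hderom : ∀ b l t, 0 < t → t < T → ∀ x, x ≠ 0 → HasDerivAt (fun r => at1 (om b l) r x)
      (∑ c, RicF (A t) (θ t) x b c * at1 (om c l) t x +
        -at1 ((baC T).Yb (embM hA) (embM ht) S0 b l) t x) t := by
    intro b l t h1 h2 x hx
    have h3 := ((hD6 T).2.1 (om b l)).2.2.2 t x h1 h2 hx
    refine h3.congr_deriv ?_
    rw [hconn b l, at1_eq h1 h2 hx, map_sub, map_sum, sub_eq_add_neg]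
    congr 1
    · refine Finset.sum_congr rfl fun c _ => ?_
      rw [map_mul, hS0e, ev1_emb, at1_eq h1 h2 hx]
    · congr 1
      have e2 : ∀ a k, ev1 h1 h2 hx ((baC T).R a b * (baC T).R k l *
          (baC T).Yb (embM hA) (embM ht) S0 a k) = if a = b then
            (if k = l then ev1 h1 h2 hx ((baC T).Yb (embM hA) (embM ht) S0 a k) else 0) else 0 := by
        intro a k
        have h4 := (hD6 T).2.2.2.1 a b t x h1 h2 hx
        have h5 := (hD6 T).2.2.2.1 k l t x h1 h2 hx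
        rw [at1_eq h1 h2 hx] at h4 h5
        rw [map_mul, map_mul, h4, h5]
        split_ifs <;> simp
      have e3 : ∀ a, ev1 h1 h2 hx (∑ k, (baC T).R a b * (baC T).R k l *
          (baC T).Yb (embM hA) (embM ht) S0 a k) = if a = b then
            ev1 h1 h2 hx ((baC T).Yb (embM hA) (embM ht) S0 a l) else 0 := by
        intro a
        rw [map_sum, Finset.sum_congr rfl fun k _ => e2 a k]
        split_ifs
        · simp
        · simp
      rw [map_sum, Finset.sum_congr rfl fun a _ => e3 a, at1_eq h1 h2 hx]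
      simp
  -- the Ricci tensor at `q = 1`
  have hRic1 : ∀ a b t, 0 < t → t < T → ∀ x, x ≠ 0 →
      at1 (show (baC T).B from (flB hA ht).Ric a b) t x = RicF (A t) (θ t) x a b := by
    intro a b t h1 h2 x hx
    have e0 : (show (baC T).B from (flB hA ht).Ric a b) =
        ∑ c, ∑ d, (baC T).R a c * (baC T).R b d * S0 c d := (hIsRF a b).symm
    rw [e0, at1_eq h1 h2 hx]
    have e2 : ∀ c d, ev1 h1 h2 hx ((baC T).R a c * (baC T).R b d * S0 c d) = if a = c then
        (if b = d then ev1 h1 h2 hx (S0 c d) else 0) else 0 := by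
      intro c d
      have h4 := (hD6 T).2.2.2.1 a c t x h1 h2 hx
      have h5 := (hD6 T).2.2.2.1 b d t x h1 h2 hx
      rw [at1_eq h1 h2 hx] at h4 h5
      rw [map_mul, map_mul, h4, h5]
      split_ifs <;> simp
    have e3 : ∀ c, ev1 h1 h2 hx (∑ d, (baC T).R a c * (baC T).R b d * S0 c d) =
        if a = c then ev1 h1 h2 hx (S0 c b) else 0 := by
      intro c
      rw [map_sum, Finset.sum_congr rfl fun d _ => e2 c d]
      split_ifs
      · simp
      · simp
    rw [map_sum, Finset.sum_congr rfl fun c _ => e3 c]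
    simp only [Finset.sum_ite_eq, Finset.mem_univ, if_true]
    rw [hS0e]
    rfl
  -- the two steps
  have stepA : ∀ m, (∀ X : (baC T).B, WI (flB hA ht) X → BW T m (at1 X)) →
      (∀ a i, BW T m (fun t x => A t x a i)) ∧ (∀ i a, BW T m (fun t x => θ t x i a)) ∧
      (∀ b l, BW T m (at1 (om b l))) ∧ ∀ a b, BW T m (fun t x => RicF (A t) (θ t) x a b) := by
    intro m hm
    have hRicb : ∀ a b, BW T m (fun t x => RicF (A t) (θ t) x a b) := fun a b =>
      BW_congr (hRic1 a b) (hm _ (Ric_WI (flB hA ht) hF hb a b))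
    have h0 : BW T m (fun _ _ => (0 : ℝ)) := (GGconst hBWR m 0).bw
    refine ⟨fun a i => ?_, fun i a => ?_, fun b l => ?_, hRicb⟩
    · refine hBWG T m 3 (fun a t x => A t x a i) (fun a b t x => RicF (A t) (θ t) x a b)
        (fun _ _ _ => 0) hT (fun a => hA a i) hRe (fun _ => JSconst 0) hRicb (fun _ => h0)
        (fun a t h1 h2 x hx => ?_) (fun a w => ?_) a
      · simpa using hderA a i t h1 h2 x hx
      · obtain ⟨C, t0, h1, h2, h3⟩ := hnear w a i
        exact ⟨C, t0, h1, h2, fun t h4 h5 x hx => (h3 t h4 h5 x hx).1⟩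
    · refine hBWG T m 3 (fun a t x => θ t x i a) (fun a b t x => -RicF (A t) (θ t) x b a)
        (fun _ _ _ => 0) hT (fun a => ht i a) (fun a b => JSneg (hRe b a)) (fun _ => JSconst 0)
        (fun a b => (GGneg hBWR ⟨hRe b a, hRicb b a⟩).bw) (fun _ => h0)
        (fun a t h1 h2 x hx => ?_) (fun a w => ?_) a
      · refine (hdert i a t h1 h2 x hx).congr_deriv ?_
        rw [add_zero, ← Finset.sum_neg_distrib]
        exact Finset.sum_congr rfl fun b _ => by ring
      · obtain ⟨C, t0, h1, h2, h3⟩ := hnear w i a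
        exact ⟨C, t0, h1, h2, fun t h4 h5 x hx => (h3 t h4 h5 x hx).2.1⟩
    · refine hBWG T m 3 (fun b => at1 (om b l)) (fun a b t x => RicF (A t) (θ t) x a b)
        (fun b t x => -at1 ((baC T).Yb (embM hA) (embM ht) S0 b l) t x) hT (fun b => hat _) hRe
        (fun b => JSneg (hat _)) hRicb (fun b => (GGneg hBWR ⟨hat _, hm _
          (Y_WI (flB hA ht) hF hIsRF hb b l)⟩).bw)
        (fun b t h1 h2 x hx => hderom b l t h1 h2 x hx) (fun b w => ?_) b
      obtain ⟨C, t0, h1, h2, h3⟩ := hnear w b l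
      exact ⟨C, t0, h1, h2, fun t h4 h5 x hx => (h3 t h4 h5 x hx).2.2⟩
  have main : ∀ m, ∀ X : (baC T).B, WI (flB hA ht) X → BW T m (at1 X) := by
    intro m
    induction m with
    | zero => exact fun X hX => at1_bdd hD6 (hX 0)
    | succ m ih =>
      intro X hX
      obtain ⟨-, hθ, hω, -⟩ := stepA m ih
      refine (hBWR T m (at1 X) (at1 X) (hat X) (hat X)).2.2.1 (at1_bdd hD6 (hX 0)) fun i => ?_
      have hG : GG T m (fun t x => ∑ b, θ t x i b *
          (at1 (show (baC T).B from (flB hA ht).H b X) t x +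
            ∑ k, at1 (om b k) t x * at1 ((baC T).V k X) t x)) := by
        refine GGsum hBWR _ (fun b t x => θ t x i b *
          (at1 (show (baC T).B from (flB hA ht).H b X) t x +
            ∑ k, at1 (om b k) t x * at1 ((baC T).V k X) t x)) fun b _ => ?_
        refine GGmul hBWR ⟨ht i b, hθ i b⟩ (GGadd hBWR ⟨hat _, ih _ (WI_H _ hX b)⟩ ?_)
        refine GGsum hBWR _ (fun k t x => at1 (om b k) t x * at1 ((baC T).V k X) t x) fun k _ => ?_
        exact GGmul hBWR ⟨hat _, hω b k⟩ ⟨hat _, ih _ (WI_V (flB hA ht) hX k)⟩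
      refine BW_congr (fun t h1 h2 x hx => ?_) hG.bw
      have h3 := ((hD6 T).2.1 X).2.2.1 i t x h1 h2 hx
      rw [← h3, at1_eq h1 h2 hx, ev1_E hD6 hA ht hinv h1 h2 hx]
      refine Finset.sum_congr rfl fun b _ => ?_
      rw [at1_eq h1 h2 hx]
      congr 2
      refine Finset.sum_congr rfl fun k _ => ?_
      rw [at1_eq h1 h2 hx, at1_eq h1 h2 hx]
  intro m
  obtain ⟨h1, h2, -, h3⟩ := stepA m (main m)
  exact ⟨h1, h2, h3⟩

end Pool.Agent.Helper62.RF
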