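import Pool.Agent.Helper73.RF.GoalsF

/-!
# Packet SCA of project RF (helper73): scaling of a metric
-/

set_option autoImplicit false

open Finset Pool.Agent.Helper47.RF

namespace Pool.Agent.Helper62.RF

open Pool.Agent.Helper73.RF hiding eps

variable {g : MF} {c : ℝ}

theorem E_cmul (i : Fin 3) (c : ℝ) (f : HH → ℝ) (x : HH) :
    E i (fun y => c * f y) x = c * E i f x := by
  unfold E
  have h : fderiv ℝ (fun y => c * f y) x = c • fderiv ℝ f x := by
    have := congrFun (fderiv_const_smul_field (𝕜 := ℝ) (f := f) c) x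
    exact this
  rw [h]
  rfl

theorem GamL_sc (i j k : Fin 3) (x : HH) :
    GamL (fun x => c • g x) i j k x = c * GamL g i j k x := by
  unfold GamL
  simp only [Matrix.smul_apply, smul_eq_mul, E_cmul]
  have e2 : ∑ l, (eps i j l * (c * g x l k) - eps i k l * (c * g x l j) -
      eps j k l * (c * g x l i)) = c * ∑ l, (eps i j l * g x l k - eps i k l * g x l j -
      eps j k l * g x l i) := by
    rw [Finset.mul_sum]
    exact Finset.sum_congr rfl fun l _ => by ring
  rw [e2]
  ring

theorem Gam_sc (hg : IsMetric g) (hc : 0 < c) (i j k : Fin 3) :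
    Gam (fun x => c • g x) i j k = Gam g i j k := by
  funext x
  unfold Gam
  refine Finset.sum_congr rfl fun m _ => ?_
  have hdet : IsUnit (g x).det := (hg.pos x).det_pos.ne'.isUnit
  have h1 : (c • g x)⁻¹ = c⁻¹ • (g x)⁻¹ := by
    refine Matrix.inv_eq_left_inv ?_
    rw [Matrix.smul_mul, Matrix.mul_smul, smul_smul, inv_mul_cancel₀ hc.ne', one_smul,
      Matrix.nonsing_inv_mul _ hdet]
  rw [h1, GamL_sc, Matrix.smul_apply, smul_eq_mul]
  field_simp

theorem Rup_sc (hg : IsMetric g) (hc : 0 < c) (i j k l : Fin 3) (x : HH) :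
    Rup (fun x => c • g x) i j k l x = Rup g i j k l x := by
  unfold Rup
  simp only [Gam_sc hg hc]

theorem Rm_sc (hg : IsMetric g) (hc : 0 < c) (i j k l : Fin 3) (x : HH) :
    Rm (fun x => c • g x) i j k l x = c * Rm g i j k l x := by
  unfold Rm
  rw [Finset.mul_sum]
  refine Finset.sum_congr rfl fun m _ => ?_
  rw [Rup_sc hg hc]
  change Rup g i j k m x * (c * g x m l) = _
  ring

theorem sca : ScaStmt := by
  intro g c hg hc
  have hs : 0 < Real.sqrt c := Real.sqrt_pos.2 hc
  have hss : Real.sqrt c * Real.sqrt c = c := Real.mul_self_sqrt hc.le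
  refine ⟨⟨fun i j => ⟨?_, fun r x hr => ?_⟩, fun x => ?_⟩, fun x _ A N h => ⟨fun a b => ?_,
    fun i j => ?_, fun a b d f => ?_⟩, ?_⟩
  · exact contDiffOn_const.mul (hg.sm i j).cd
  · have := (hg.sm i j).hom r x hr
    simp only [Matrix.smul_apply, this]
  · exact (hg.pos x).smul hc
  · rw [← h.orth a b]
    unfold ip
    refine Finset.sum_congr rfl fun i _ => Finset.sum_congr rfl fun j _ => ?_
    change c * g x i j * (A a i / Real.sqrt c) * (A b j / Real.sqrt c) = _
    have : c * g x i j * (A a i / Real.sqrt c) * (A b j / Real.sqrt c) =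
        c * g x i j * A a i * A b j / (Real.sqrt c * Real.sqrt c) := by
      field_simp
    rw [this, hss]
    field_simp
  · simp only [h.symm i j]
  · have e1 : ∀ i j k l, Rm (fun x => c • g x) i j k l x * (A a i / Real.sqrt c) *
        (A b j / Real.sqrt c) * (A d k / Real.sqrt c) * (A f l / Real.sqrt c) =
        c⁻¹ * (Rm g i j k l x * A a i * A b j * A d k * A f l) := by
      intro i j k l
      rw [Rm_sc hg hc]
      have : c * Rm g i j k l x * (A a i / Real.sqrt c) * (A b j / Real.sqrt c) *
          (A d k / Real.sqrt c) * (A f l / Real.sqrt c) =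
          c * (Rm g i j k l x * A a i * A b j * A d k * A f l) /
          ((Real.sqrt c * Real.sqrt c) * (Real.sqrt c * Real.sqrt c)) := by
        field_simp
      rw [this, hss]
      field_simp
    have e2 : ∀ l k, eps a b l * (N l k / c) * eps k d f =
        c⁻¹ * (eps a b l * N l k * eps k d f) := fun l k => by ring
    simp only [e1, e2, ← Finset.mul_sum]
    rw [h.curv a b d f]
    ring
  · unfold gvol
    have e : ∀ x, Real.sqrt (c • g x).det = (c * Real.sqrt c) * Real.sqrt (g x).det := by
      intro x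
      rw [Matrix.det_smul, Fintype.card_fin, Real.sqrt_mul (by positivity)]
      congr 1
      rw [show c ^ 3 = c ^ 2 * c by ring, Real.sqrt_mul (by positivity), Real.sqrt_sq hc.le]
    simp only [e]
    rw [MeasureTheory.integral_const_mul]
    ring

end Pool.Agent.Helper62.RF
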